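import Pool.Agent.Helper71.FK.Defs

/-! # One dimensional calculus for the propagation estimate (M5) -/

open MeasureTheory Metric Set Filter Topology
open scoped ENNReal

namespace Pool.Agent.Helper37.FK

/-- piecewise linear ramp from `1/4` to `1/2` -/
noncomputable def kk (p : ℝ) : ℝ := max 0 (min 1 (4 * p - 1))

/-- truncated variable -/
noncomputable def qq (p : ℝ) : ℝ := max p (1 / 8)

/-- `p ^ (-N/2)` -/
noncomputable def rh (N : ℕ) (p : ℝ) : ℝ := qq p ^ (-(N : ℝ) / 2)

noncomputable def ka (N : ℕ) (p : ℝ) : ℝ := kk p * rh N p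
noncomputable def kp (N : ℕ) (p : ℝ) : ℝ := kk p * rh N p / qq p

/-- the weight `θ` -/
noncomputable def th (N : ℕ) (p : ℝ) : ℝ := (Ioo (1 / 4 : ℝ) (1 / 2)).indicator (fun p => 4 * rh N p) p

theorem qq_pos (p : ℝ) : 0 < qq p := lt_max_of_lt_right (by norm_num)
theorem qq_eq {p : ℝ} (hp : 1 / 8 ≤ p) : qq p = p := max_eq_left hp
theorem kk_cont : Continuous kk := by unfold kk; fun_prop
theorem qq_cont : Continuous qq := by unfold qq; fun_prop
theorem rh_cont (N : ℕ) : Continuous (rh N) :=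
  qq_cont.rpow_const fun p => Or.inl (qq_pos p).ne'
theorem rh_pos (N : ℕ) (p : ℝ) : 0 < rh N p := Real.rpow_pos_of_pos (qq_pos p) _
theorem ka_cont (N : ℕ) : Continuous (ka N) := kk_cont.mul (rh_cont N)
theorem kp_cont (N : ℕ) : Continuous (kp N) :=
  (kk_cont.mul (rh_cont N)).div qq_cont fun p => (qq_pos p).ne'
theorem th_meas (N : ℕ) : Measurable (th N) :=
  (measurable_const.mul (rh_cont N).measurable).indicator measurableSet_Ioo

theorem kk_zero {p : ℝ} (hp : p ≤ 1 / 4) : kk p = 0 := by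
  unfold kk
  rw [max_eq_left]
  exact (min_le_right _ _).trans (by linarith)

theorem kk_one {p : ℝ} (hp : 1 / 2 ≤ p) : kk p = 1 := by
  unfold kk
  rw [min_eq_left (by linarith), max_eq_right (by norm_num)]

theorem kk_mid {p : ℝ} (h1 : 1 / 4 ≤ p) (h2 : p ≤ 1 / 2) : kk p = 4 * p - 1 := by
  unfold kk
  rw [min_eq_right (by linarith), max_eq_right (by linarith)]

theorem kk_nonneg (p : ℝ) : 0 ≤ kk p := le_max_left _ _
theorem kk_le (p : ℝ) : kk p ≤ 1 := max_le (by norm_num) (min_le_left _ _)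

theorem ka_zero (N : ℕ) {p : ℝ} (hp : p ≤ 1 / 4) : ka N p = 0 := by
  unfold ka; rw [kk_zero hp, zero_mul]
theorem kp_zero (N : ℕ) {p : ℝ} (hp : p ≤ 1 / 4) : kp N p = 0 := by
  unfold kp; rw [kk_zero hp, zero_mul, zero_div]
theorem ka_one (N : ℕ) : ka N 1 = 1 := by
  unfold ka rh
  rw [kk_one (by norm_num), qq_eq (by norm_num), Real.one_rpow, mul_one]
theorem ka_nonneg (N : ℕ) (p : ℝ) : 0 ≤ ka N p := mul_nonneg (kk_nonneg p) (rh_pos N p).le
theorem kp_nonneg (N : ℕ) (p : ℝ) : 0 ≤ kp N p :=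
  div_nonneg (mul_nonneg (kk_nonneg p) (rh_pos N p).le) (qq_pos p).le
theorem th_nonneg (N : ℕ) (p : ℝ) : 0 ≤ th N p := by
  unfold th
  refine indicator_nonneg (fun p _ => ?_) p
  have := rh_pos N p
  positivity

theorem rh_le {N : ℕ} {p : ℝ} (hp : 1 / 4 ≤ p) : rh N p ≤ 2 ^ N := by
  unfold rh
  rw [qq_eq (by linarith)]
  have h1 : p ^ (-(N : ℝ) / 2) ≤ (1 / 4 : ℝ) ^ (-(N : ℝ) / 2) :=
    Real.rpow_le_rpow_of_nonpos (by norm_num) hp (by
      have : (0 : ℝ) ≤ N := by positivity
      linarith)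
  refine h1.trans (le_of_eq ?_)
  have e : (1 / 4 : ℝ) = (1 / 2) ^ (2 : ℝ) := by norm_num
  rw [e, ← Real.rpow_mul (by norm_num)]
  have e2 : (2 : ℝ) * (-(N : ℝ) / 2) = -(N : ℝ) := by ring
  rw [e2, Real.rpow_neg (by norm_num), Real.rpow_natCast, one_div, inv_pow, inv_inv]

theorem ka_le (N : ℕ) (p : ℝ) : ka N p ≤ 2 ^ N := by
  by_cases hp : p ≤ 1 / 4
  · rw [ka_zero N hp]; positivity
  · unfold ka
    calc kk p * rh N p ≤ 1 * 2 ^ N :=
          mul_le_mul (kk_le p) (rh_le (not_le.1 hp).le) (rh_pos N p).le (by norm_num)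
      _ = _ := one_mul _

theorem th_le (N : ℕ) (p : ℝ) : th N p ≤ 2 ^ (N + 2) := by
  unfold th
  by_cases hp : p ∈ Ioo (1 / 4 : ℝ) (1 / 2)
  · rw [indicator_of_mem hp, pow_add]
    have := rh_le (N := N) hp.1.le
    linarith
  · rw [indicator_of_notMem hp]; positivity

theorem kp_eq (N : ℕ) (p : ℝ) : kp N p = ka N p / qq p := rfl

theorem kp_le (N : ℕ) (p : ℝ) : kp N p ≤ 4 * 2 ^ N := by
  by_cases hp : p ≤ 1 / 4
  · rw [kp_zero N hp]; positivity
  · rw [kp_eq, div_le_iff₀ (qq_pos p)]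
    rw [qq_eq (by linarith [not_le.1 hp])]
    have := ka_le N p
    have h2 : (0 : ℝ) < 2 ^ N := by positivity
    nlinarith [not_le.1 hp]

/-- `p ^ (-N/2) * (√p)^N = 1` -/
theorem rh_sqrt (N : ℕ) {p : ℝ} (hp : 1 / 8 ≤ p) : rh N p * Real.sqrt p ^ N = 1 := by
  unfold rh
  have hp0 : 0 < p := by linarith
  rw [qq_eq hp, Real.sqrt_eq_rpow, ← Real.rpow_natCast, ← Real.rpow_mul hp0.le,
    ← Real.rpow_add hp0]
  have : -(N : ℝ) / 2 + 1 / 2 * (N : ℝ) = 0 := by ring
  rw [this, Real.rpow_zero]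

theorem kdiv_sqrt_le {N : ℕ} {p : ℝ} (hp : 1 / 4 ≤ p) : ka N p / Real.sqrt p ≤ 2 ^ (N + 1) := by
  have h1 : (1 / 2 : ℝ) ≤ Real.sqrt p := by
    rw [show (1 / 2 : ℝ) = Real.sqrt (1 / 4) by
      rw [show (1 / 4 : ℝ) = (1 / 2) ^ 2 by norm_num, Real.sqrt_sq (by norm_num)]]
    exact Real.sqrt_le_sqrt hp
  rw [div_le_iff₀ (by linarith), pow_succ]
  have := ka_le N p
  have h2 : (0 : ℝ) < 2 ^ N := by positivity
  nlinarith

/-! ## the derivative -/

/-- derivative of `ka p * m (A / qq p)` -/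
noncomputable def DD (N : ℕ) (m : ℝ → ℝ) (A p : ℝ) : ℝ :=
  th N p * m (A / qq p) - kp N p * ((N : ℝ) / 2 * m (A / qq p) + (A / qq p) * deriv m (A / qq p))

theorem HD (N : ℕ) {m : ℝ → ℝ} (hm : ContDiff ℝ 1 m) (A : ℝ) {p : ℝ} (h1 : p ≠ 1 / 4)
    (h2 : p ≠ 1 / 2) : HasDerivAt (fun p => ka N p * m (A / qq p)) (DD N m A p) p := by
  rcases lt_or_gt_of_ne h1 with hlt | hgt
  · have e : (fun p => ka N p * m (A / qq p)) =ᶠ[𝓝 p] fun _ => (0 : ℝ) := by
      filter_upwards [Iio_mem_nhds hlt] with x hx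
      rw [ka_zero N (le_of_lt hx), zero_mul]
    have e2 : DD N m A p = 0 := by
      unfold DD
      rw [kp_zero N hlt.le]
      have : p ∉ Ioo (1 / 4 : ℝ) (1 / 2) := fun h => by linarith [h.1]
      unfold th
      rw [indicator_of_notMem this]
      ring
    rw [e2]
    exact (hasDerivAt_const p 0).congr_of_eventuallyEq e
  · have hp0 : 0 < p := by linarith
    -- the smooth factor
    have hr : HasDerivAt (fun p : ℝ => p ^ (-(N : ℝ) / 2)) (-(N : ℝ) / 2 * p ^ (-(N : ℝ) / 2 - 1)) p :=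
      Real.hasDerivAt_rpow_const (Or.inl hp0.ne')
    have hd : HasDerivAt (fun p : ℝ => A / p) (-A / p ^ 2) p := by
      have := (hasDerivAt_const p A).div (hasDerivAt_id p) hp0.ne'
      refine this.congr_deriv ?_
      simp
    have hmm : HasDerivAt m (deriv m (A / p)) (A / p) :=
      ((hm.differentiable (by norm_num)) _).hasDerivAt
    have hmd : HasDerivAt (fun p : ℝ => m (A / p)) (deriv m (A / p) * (-A / p ^ 2)) p :=
      hmm.comp p hd
    have hR := hr.mul hmd
    have hq : qq p = p := qq_eq (by linarith)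
    have hrp : p ^ (-(N : ℝ) / 2 - 1) = rh N p / p := by
      rw [Real.rpow_sub_one hp0.ne']
      unfold rh
      rw [hq]
    have hrp' : p ^ (-(N : ℝ) / 2) = rh N p := by unfold rh; rw [hq]
    rcases lt_or_gt_of_ne h2 with hlt2 | hgt2
    · have hk : HasDerivAt (fun p : ℝ => 4 * p - 1) 4 p := by
        simpa using ((hasDerivAt_id p).const_mul 4).sub_const 1
      have hH := hk.mul hR
      have e : (fun p => ka N p * m (A / qq p)) =ᶠ[𝓝 p]
          (fun p : ℝ => (4 * p - 1)) * ((fun p : ℝ => p ^ (-(N : ℝ) / 2)) * fun p => m (A / p)) := by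
        filter_upwards [Ioo_mem_nhds hgt hlt2] with x hx
        unfold ka rh
        rw [kk_mid hx.1.le hx.2.le, qq_eq (by linarith [hx.1])]
        simp only [Pi.mul_apply]
        ring
      refine (hH.congr_of_eventuallyEq e).congr_deriv ?_
      simp only [Pi.mul_apply]
      have hin : p ∈ Ioo (1 / 4 : ℝ) (1 / 2) := ⟨hgt, hlt2⟩
      unfold DD th kp
      rw [indicator_of_mem hin, kk_mid hgt.le hlt2.le, hq, hrp, hrp']
      field_simp
      ring
    · have e : (fun p => ka N p * m (A / qq p)) =ᶠ[𝓝 p]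
          ((fun p : ℝ => p ^ (-(N : ℝ) / 2)) * fun p => m (A / p)) := by
        filter_upwards [Ioi_mem_nhds hgt2] with x hx
        have hx' : 1 / 2 < x := hx
        unfold ka rh
        rw [kk_one hx'.le, qq_eq (by linarith)]
        simp only [Pi.mul_apply]
        ring
      refine (hR.congr_of_eventuallyEq e).congr_deriv ?_
      have hn : p ∉ Ioo (1 / 4 : ℝ) (1 / 2) := fun h => by linarith [h.2]
      unfold DD th kp
      rw [indicator_of_notMem hn, kk_one hgt2.le, hq, hrp, hrp']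
      field_simp
      ring

/-- fundamental theorem of calculus along the levels -/
theorem ftc_level {N : ℕ} (hN : 1 ≤ N) {m : ℝ → ℝ} (hm : ContDiff ℝ 1 m) (A s0 : ℝ) :
    ∫ s in (0 : ℝ)..s0, 2 * N * DD N m A (1 - 2 * N * s) =
      m A - ka N (1 - 2 * N * s0) * m (A / qq (1 - 2 * N * s0)) := by
  have hN0 : (0 : ℝ) < N := by exact_mod_cast hN
  have hcm : Continuous m := hm.continuous
  have hcd : Continuous (deriv m) := hm.continuous_deriv le_rfl
  have hAq : Continuous fun p => A / qq p := continuous_const.div qq_cont fun p => (qq_pos p).ne'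
  set f : ℝ → ℝ := fun s => -(ka N (1 - 2 * N * s) * m (A / qq (1 - 2 * N * s))) with hf
  have hl : Continuous fun s : ℝ => 1 - 2 * (N : ℝ) * s := by fun_prop
  have hc : Continuous f := by
    have h1 : Continuous fun p => ka N p * m (A / qq p) := (ka_cont N).mul (hcm.comp hAq)
    exact (h1.comp hl).neg
  have h := integral_eq_of_hasDerivAt_off_countable f
    (fun s => 2 * N * DD N m A (1 - 2 * N * s)) (a := 0) (b := s0)
    (s := {s | 1 - 2 * N * s = 1 / 4 ∨ 1 - 2 * N * s = 1 / 2}) ?_ hc.continuousOn ?_ ?_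
  · rw [h]
    simp only [hf]
    rw [mul_zero, sub_zero, ka_one, qq_eq (by norm_num : (1 / 8 : ℝ) ≤ 1), div_one]
    ring
  · have : {s : ℝ | 1 - 2 * N * s = 1 / 4 ∨ 1 - 2 * N * s = 1 / 2} ⊆
        ({(3 / 4) / (2 * (N : ℝ)), (1 / 2) / (2 * (N : ℝ))} : Set ℝ) := by
      rintro s (hs | hs)
      · left
        rw [eq_div_iff (by positivity)]
        linarith
      · right
        rw [mem_singleton_iff, eq_div_iff (by positivity)]
        linarith
    exact (Set.toFinite _).countable.mono this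
  · rintro s ⟨-, hs⟩
    have h1 : 1 - 2 * N * s ≠ 1 / 4 := fun h => hs (Or.inl h)
    have h2 : 1 - 2 * N * s ≠ 1 / 2 := fun h => hs (Or.inr h)
    have h3 : HasDerivAt (fun s : ℝ => 1 - 2 * (N : ℝ) * s) (-(2 * N)) s := by
      have := ((hasDerivAt_id s).const_mul (2 * (N : ℝ))).const_sub 1
      refine this.congr_deriv ?_
      ring
    have h4 := ((HD N hm A h1 h2).comp s h3).neg
    refine h4.congr_deriv ?_
    ring
  · have hmeas : Measurable fun s : ℝ => 2 * N * DD N m A (1 - 2 * N * s) := by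
      unfold DD
      have m1 : Measurable fun p => th N p * m (A / qq p) :=
        (th_meas N).mul (hcm.comp hAq).measurable
      have m2 : Measurable fun p => kp N p * ((N : ℝ) / 2 * m (A / qq p) +
          (A / qq p) * deriv m (A / qq p)) :=
        ((kp_cont N).mul ((continuous_const.mul (hcm.comp hAq)).add
          (hAq.mul (hcd.comp hAq)))).measurable
      exact measurable_const.mul ((m1.sub m2).comp hl.measurable)
    -- bounded on the compact interval
    have hb1 : Continuous fun s : ℝ => m (A / qq (1 - 2 * N * s)) := (hcm.comp hAq).comp hl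
    have hb2 : Continuous fun s : ℝ => kp N (1 - 2 * N * s) * ((N : ℝ) / 2 *
        m (A / qq (1 - 2 * N * s)) +
          (A / qq (1 - 2 * N * s)) * deriv m (A / qq (1 - 2 * N * s))) :=
      ((kp_cont N).mul ((continuous_const.mul (hcm.comp hAq)).add
          (hAq.mul (hcd.comp hAq)))).comp hl
    have i1 : IntervalIntegrable (fun s : ℝ => th N (1 - 2 * N * s) * m (A / qq (1 - 2 * N * s)))
        volume 0 s0 := by
      refine IntervalIntegrable.mono_fun' ((hb1.norm.const_mul (2 ^ (N + 2))).intervalIntegrable 0 s0)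
        ((((th_meas N).comp hl.measurable).mul hb1.measurable).aestronglyMeasurable) ?_
      refine Eventually.of_forall fun s => ?_
      simp only []
      rw [norm_mul, Real.norm_of_nonneg (th_nonneg N _)]
      exact mul_le_mul_of_nonneg_right (th_le N _) (norm_nonneg _)
    have := (i1.sub (hb2.intervalIntegrable 0 s0)).const_mul (2 * (N : ℝ))
    exact this

end Pool.Agent.Helper37.FK
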