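import Pool.Agent.Helper37.FK.Calc

/-! # Layer cake formulas and the level identities (M5) -/

open MeasureTheory Metric Set Filter Topology
open scoped ENNReal

namespace Pool.Agent.Helper37.FK
open Pool.Agent.Helper71.FK
variable {N : ℕ}

/-- region below the graph -/
def reg (w : E N → ℝ) : Set (ℝ × E N) := {q | 0 < q.1 ∧ q.1 < w q.2}

theorem reg_meas {w : E N → ℝ} (hw : Measurable w) : MeasurableSet (reg w) :=
  (measurableSet_lt measurable_const measurable_fst).inter
    (measurableSet_lt measurable_fst (hw.comp measurable_snd))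

theorem reg_vol {w : E N → ℝ} (hw : Measurable w) (h0 : ∀ x, 0 ≤ w x) (hi : Integrable w) :
    ((volume : Measure ℝ).prod (volume : Measure (E N))) (reg w) < ⊤ := by
  rw [Measure.prod_apply_symm (reg_meas hw)]
  have e : ∀ y : E N, volume ((fun s : ℝ => (s, y)) ⁻¹' reg w) = ENNReal.ofReal (w y) := by
    intro y
    have : (fun s : ℝ => (s, y)) ⁻¹' reg w = Ioo 0 (w y) := by
      ext s
      simp [reg]
    rw [this, Real.volume_Ioo, sub_zero]
  simp only [e]
  rw [← ofReal_integral_eq_lintegral_ofReal hi (Eventually.of_forall h0)]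
  exact ENNReal.ofReal_lt_top

theorem layer {w : E N → ℝ} (hw : Measurable w) (h0 : ∀ x, 0 ≤ w x) (hi : Integrable w)
    {F : ℝ → E N → ℝ} (hF : Measurable (Function.uncurry F)) {C : ℝ} (hC : ∀ s y, |F s y| ≤ C) :
    Integrable (fun y => ∫ s in (0 : ℝ)..w y, F s y) ∧
    IntegrableOn (fun s => ∫ y in {y | s < w y}, F s y) (Ioi 0) ∧
    ∫ y, (∫ s in (0 : ℝ)..w y, F s y) = ∫ s in Ioi (0 : ℝ), ∫ y in {y | s < w y}, F s y := by
  set G : ℝ × E N → ℝ := (reg w).indicator (Function.uncurry F) with hG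
  have hGi : Integrable G ((volume : Measure ℝ).prod (volume : Measure (E N))) := by
    rw [hG, integrable_indicator_iff (reg_meas hw)]
    refine Measure.integrableOn_of_bounded (M := C) (reg_vol hw h0 hi).ne
      hF.aestronglyMeasurable ?_
    exact Eventually.of_forall fun q => hC q.1 q.2
  have e1 : ∀ y, ∫ s, G (s, y) = ∫ s in (0 : ℝ)..w y, F s y := by
    intro y
    rw [intervalIntegral.integral_of_le (h0 y), integral_Ioc_eq_integral_Ioo,
      ← integral_indicator measurableSet_Ioo]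
    refine integral_congr_ae (Eventually.of_forall fun s => ?_)
    by_cases hs : s ∈ Ioo 0 (w y)
    · have : (s, y) ∈ reg w := hs
      simp only [hG]
      rw [indicator_of_mem this, indicator_of_mem hs]
      rfl
    · have : (s, y) ∉ reg w := hs
      simp only [hG]
      rw [indicator_of_notMem this, indicator_of_notMem hs]
  have e2 : ∀ s, ∫ y, G (s, y) = (Ioi (0 : ℝ)).indicator
      (fun s => ∫ y in {y | s < w y}, F s y) s := by
    intro s
    by_cases hs : 0 < s
    · rw [indicator_of_mem (show s ∈ Ioi (0 : ℝ) from hs),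
        ← integral_indicator (measurableSet_lt measurable_const hw)]
      refine integral_congr_ae (Eventually.of_forall fun y => ?_)
      by_cases hy : s < w y
      · have : (s, y) ∈ reg w := ⟨hs, hy⟩
        simp only [hG]
        rw [indicator_of_mem this, indicator_of_mem (show y ∈ {y | s < w y} from hy)]
        rfl
      · have : (s, y) ∉ reg w := fun h => hy h.2
        simp only [hG]
        rw [indicator_of_notMem this, indicator_of_notMem (show y ∉ {y | s < w y} from hy)]
    · rw [indicator_of_notMem (show s ∉ Ioi (0 : ℝ) from hs)]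
      rw [← integral_zero (E N) ℝ (μ := volume)]
      refine integral_congr_ae (Eventually.of_forall fun y => ?_)
      have : (s, y) ∉ reg w := fun h => hs h.1
      simp only [hG]
      rw [indicator_of_notMem this]
  refine ⟨?_, ?_, ?_⟩
  · have := hGi.integral_prod_right
    refine this.congr (Eventually.of_forall fun y => ?_)
    exact e1 y
  · have := hGi.integral_prod_left
    rw [← integrable_indicator_iff measurableSet_Ioi]
    refine this.congr (Eventually.of_forall fun s => ?_)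
    exact e2 s
  · rw [← integral_indicator measurableSet_Ioi]
    simp only [← e1, ← e2]
    have h := integral_integral_swap (f := fun (s : ℝ) (y : E N) => G (s, y)) hGi
    exact h.symm

/-- hypotheses on the radial profile -/
structure Prof (m : ℝ → ℝ) (C : ℝ) : Prop where
  smooth : ContDiff ℝ 1 m
  bdd : ∀ x, |m x| ≤ C
  bdd' : ∀ x, |x * deriv m x| ≤ C

/-- first level integrand -/
noncomputable def F1 (N : ℕ) (b : E N) (m : ℝ → ℝ) (s : ℝ) (y : E N) : ℝ :=
  2 * N * (th N (1 - 2 * N * s) * m (‖y - b‖ ^ 2 / qq (1 - 2 * N * s)))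

/-- second level integrand -/
noncomputable def F2 (N : ℕ) (b : E N) (m : ℝ → ℝ) (s : ℝ) (y : E N) : ℝ :=
  N * (kp N (1 - 2 * N * s) * (N * m (‖y - b‖ ^ 2 / qq (1 - 2 * N * s)) +
      2 * ((‖y - b‖ ^ 2 / qq (1 - 2 * N * s)) * deriv m (‖y - b‖ ^ 2 / qq (1 - 2 * N * s)))))

/-- first level integral -/
noncomputable def T1 (N : ℕ) (w : E N → ℝ) (b : E N) (m : ℝ → ℝ) : ℝ :=
  ∫ s in Ioi (0 : ℝ), ∫ y in {y | s < w y}, F1 N b m s y

/-- second level integral -/
noncomputable def T2 (N : ℕ) (w : E N → ℝ) (b : E N) (m : ℝ → ℝ) : ℝ :=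
  ∫ s in Ioi (0 : ℝ), ∫ y in {y | s < w y}, F2 N b m s y

theorem xq_cont (b : E N) :
    Continuous fun q : ℝ × E N => ‖q.2 - b‖ ^ 2 / qq (1 - 2 * N * q.1) := by
  have h1 : Continuous fun q : ℝ × E N => ‖q.2 - b‖ ^ 2 := by fun_prop
  have h2 : Continuous fun q : ℝ × E N => qq (1 - 2 * N * q.1) := qq_cont.comp (by fun_prop)
  exact h1.div h2 fun q => (qq_pos _).ne'

theorem F1_meas {m : ℝ → ℝ} {C : ℝ} (hm : Prof m C) (b : E N) :
    Measurable (Function.uncurry (F1 N b m)) := by
  have h1 : Measurable fun q : ℝ × E N => th N (1 - 2 * N * q.1) :=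
    (th_meas N).comp (by fun_prop)
  have h2 : Measurable fun q : ℝ × E N => m (‖q.2 - b‖ ^ 2 / qq (1 - 2 * N * q.1)) :=
    (hm.smooth.continuous.comp (xq_cont b)).measurable
  exact measurable_const.mul (h1.mul h2)

theorem F2_meas {m : ℝ → ℝ} {C : ℝ} (hm : Prof m C) (b : E N) :
    Measurable (Function.uncurry (F2 N b m)) := by
  have h1 : Continuous fun q : ℝ × E N => kp N (1 - 2 * N * q.1) :=
    (kp_cont N).comp (by fun_prop)
  have h2 := hm.smooth.continuous.comp (xq_cont b)
  have h3 := (hm.smooth.continuous_deriv le_rfl).comp (xq_cont b)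
  have h4 := (xq_cont b).mul h3
  have h5 := (continuous_const (y := (N : ℝ))).mul (h1.mul (((continuous_const (y := (N : ℝ))).mul
    h2).add ((continuous_const (y := (2 : ℝ))).mul h4)))
  exact h5.measurable

theorem F1_bdd {m : ℝ → ℝ} {C : ℝ} (hm : Prof m C) (b : E N) (s : ℝ) (y : E N) :
    |F1 N b m s y| ≤ 2 * N * (2 ^ (N + 2) * C) := by
  unfold F1
  rw [abs_mul, abs_mul (th _ _), abs_of_nonneg (th_nonneg N _), abs_of_nonneg (by positivity)]
  exact mul_le_mul_of_nonneg_left (mul_le_mul (th_le N _) (hm.bdd _) (abs_nonneg _)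
    (by positivity)) (by positivity)

theorem F2_bdd {m : ℝ → ℝ} {C : ℝ} (hm : Prof m C) (b : E N) (s : ℝ) (y : E N) :
    |F2 N b m s y| ≤ N * (4 * 2 ^ N * (N * C + 2 * C)) := by
  unfold F2
  rw [abs_mul, abs_mul (kp _ _), abs_of_nonneg (kp_nonneg N _),
    abs_of_nonneg (by positivity : (0 : ℝ) ≤ N)]
  refine mul_le_mul_of_nonneg_left (mul_le_mul (kp_le N _) ?_ (abs_nonneg _)
    (by positivity)) (by positivity)
  refine (abs_add_le _ _).trans (add_le_add ?_ ?_)
  · rw [abs_mul, abs_of_nonneg (by positivity : (0 : ℝ) ≤ N)]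
    exact mul_le_mul_of_nonneg_left (hm.bdd _) (by positivity)
  · rw [abs_mul, abs_of_pos (by norm_num : (0 : ℝ) < 2)]
    exact mul_le_mul_of_nonneg_left (hm.bdd' _) (by positivity)

theorem ii_of_bdd {F : ℝ → E N → ℝ} (hF : Measurable (Function.uncurry F)) {C : ℝ}
    (hC : ∀ s y, |F s y| ≤ C) (y : E N) (a c : ℝ) :
    IntervalIntegrable (fun s => F s y) volume a c := by
  have hmy : Measurable fun s : ℝ => F s y := hF.comp (measurable_id.prodMk measurable_const)
  exact (intervalIntegrable_const (c := C)).mono_fun'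
    hmy.aestronglyMeasurable (Eventually.of_forall fun s => hC s y)

/-- the integrated level identity -/
theorem level_id (hN : 1 ≤ N) {w : E N → ℝ} (hw : Measurable w) (h0 : ∀ x, 0 ≤ w x)
    (hi : Integrable w) (b : E N) {m : ℝ → ℝ} {C : ℝ} (hm : Prof m C) :
    Integrable (fun y => m (‖y - b‖ ^ 2) -
      ka N (1 - 2 * N * w y) * m (‖y - b‖ ^ 2 / qq (1 - 2 * N * w y))) ∧
    ∫ y, (m (‖y - b‖ ^ 2) - ka N (1 - 2 * N * w y) * m (‖y - b‖ ^ 2 / qq (1 - 2 * N * w y))) =
      T1 N w b m - T2 N w b m := by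
  obtain ⟨a1, a2, a3⟩ := layer hw h0 hi (F1_meas hm b) (F1_bdd hm b)
  obtain ⟨b1, b2, b3⟩ := layer hw h0 hi (F2_meas hm b) (F2_bdd hm b)
  have key : ∀ y, (∫ s in (0 : ℝ)..w y, F1 N b m s y) - (∫ s in (0 : ℝ)..w y, F2 N b m s y) =
      m (‖y - b‖ ^ 2) - ka N (1 - 2 * N * w y) * m (‖y - b‖ ^ 2 / qq (1 - 2 * N * w y)) := by
    intro y
    have e : ∫ s in (0 : ℝ)..w y, 2 * N * DD N m (‖y - b‖ ^ 2) (1 - 2 * N * s) =
        ∫ s in (0 : ℝ)..w y, (F1 N b m s y - F2 N b m s y) := by
      refine intervalIntegral.integral_congr fun s _ => ?_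
      simp only [DD, F1, F2]
      ring
    rw [← ftc_level hN hm.smooth (‖y - b‖ ^ 2) (w y), e,
      intervalIntegral.integral_sub (ii_of_bdd (F1_meas hm b) (F1_bdd hm b) y _ _)
        (ii_of_bdd (F2_meas hm b) (F2_bdd hm b) y _ _)]
  have e2 : (fun y => m (‖y - b‖ ^ 2) -
      ka N (1 - 2 * N * w y) * m (‖y - b‖ ^ 2 / qq (1 - 2 * N * w y))) =
      fun y => (∫ s in (0 : ℝ)..w y, F1 N b m s y) - (∫ s in (0 : ℝ)..w y, F2 N b m s y) :=
    funext fun y => (key y).symm
  rw [e2]
  refine ⟨a1.sub b1, ?_⟩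
  unfold T1 T2
  rw [← a3, ← b3, ← integral_sub a1 b1]

end Pool.Agent.Helper37.FK
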