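import Pool.Agent.Helper37.FK.Layer

/-! # M5: propagation of the asymmetry through the level sets -/

open MeasureTheory Metric Set Filter Topology
open scoped ENNReal

namespace Pool.Agent.Helper37.FK
open Pool.Agent.Helper71.FK
variable {N : ℕ}

/-! ## the pointwise inequality -/

theorem ptwise {V : Type*} [NormedAddCommGroup V] [InnerProductSpace ℝ V] (g v : V) {Q M : ℝ}
    (hM0 : 0 ≤ M) (hM2 : M ≤ 2) (hM : M ≠ 0 → ‖v‖ ^ 2 / qq Q < 1) :
    (1 / 2) * (ka N Q - (N : ℝ) ^ 2 * kp N Q * ‖g‖ ^ 2) - 2 ^ (N + 1) * |Real.sqrt Q - N * ‖g‖| ≤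
      ka N Q * M + N * kp N Q * M * inner ℝ g v := by
  by_cases hQ : Q ≤ 1 / 4
  · rw [ka_zero N hQ, kp_zero N hQ]
    have : (0 : ℝ) ≤ 2 ^ (N + 1) * |Real.sqrt Q - N * ‖g‖| := by positivity
    simp only [mul_zero, zero_mul, sub_self, zero_sub, add_zero]
    linarith
  · have hQ' : 1 / 4 < Q := not_le.1 hQ
    have hQ0 : 0 < Q := by linarith
    have hq : qq Q = Q := qq_eq (by linarith)
    set r := Real.sqrt Q with hr
    have hr0 : 0 < r := Real.sqrt_pos.2 hQ0
    have hr2 : r ^ 2 = Q := Real.sq_sqrt hQ0.le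
    set G := ‖g‖ with hG
    have hG0 : 0 ≤ G := norm_nonneg g
    set t := N * G / r with ht
    have hN0 : (0 : ℝ) ≤ N := by positivity
    have ht0 : 0 ≤ t := by positivity
    set K := ka N Q with hK
    have hK0 : 0 ≤ K := ka_nonneg N Q
    have hkp : kp N Q = K / Q := by rw [kp_eq, hq]
    -- first: the right hand side is at least `K * M * (1 - t)`
    have h1 : K * M * (1 - t) ≤ K * M + N * kp N Q * M * inner ℝ g v := by
      by_cases hM1 : M = 0
      · rw [hM1]; simp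
      · have h2 := hM hM1
        rw [hq, div_lt_one hQ0] at h2
        have h3 : ‖v‖ ≤ r := by
          rw [hr]
          exact Real.le_sqrt_of_sq_le h2.le
        have h4 : -(G * r) ≤ inner ℝ g v := by
          have h5 := abs_real_inner_le_norm g v
          have h6 := neg_le_of_abs_le h5
          have h7 : ‖g‖ * ‖v‖ ≤ G * r := mul_le_mul_of_nonneg_left h3 hG0
          linarith
        rw [hkp]
        have h8 : K * M * (1 - t) = K * M + N * (K / Q) * M * (-(G * r)) := by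
          rw [ht, ← hr2]
          field_simp
          ring
        rw [h8]
        have h9 : 0 ≤ N * (K / Q) * M := by positivity
        linarith [mul_le_mul_of_nonneg_left h4 h9]
    -- second
    have h2 : K * (1 - t) - K * |1 - t| ≤ K * M * (1 - t) := by
      have h3 : -|1 - t| ≤ (M - 1) * (1 - t) := by
        have h4 : |(M - 1) * (1 - t)| ≤ |1 - t| := by
          rw [abs_mul]
          have : |M - 1| ≤ 1 := abs_le.2 ⟨by linarith, by linarith⟩
          nlinarith [abs_nonneg (1 - t)]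
        exact neg_le_of_abs_le h4
      nlinarith [mul_le_mul_of_nonneg_left h3 hK0]
    have h3 : (1 / 2) * (K - (N : ℝ) ^ 2 * kp N Q * G ^ 2) ≤ K * (1 - t) := by
      have h4 : (N : ℝ) ^ 2 * kp N Q * G ^ 2 = K * t ^ 2 := by
        rw [hkp, ht, ← hr2]
        field_simp
      rw [h4]
      nlinarith [mul_nonneg hK0 (sq_nonneg (1 - t))]
    have h4 : K * |1 - t| ≤ 2 ^ (N + 1) * |r - N * G| := by
      have h5 : |1 - t| = |r - N * G| / r := by
        rw [← abs_of_pos hr0, ← abs_div, abs_of_pos hr0]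
        congr 1
        rw [ht]
        field_simp
      rw [h5]
      have h6 := kdiv_sqrt_le (N := N) hQ'.le
      calc K * (|r - N * G| / r) = K / r * |r - N * G| := by ring
        _ ≤ 2 ^ (N + 1) * |r - N * G| := mul_le_mul_of_nonneg_right h6 (abs_nonneg _)
    linarith

/-! ## change of variables -/

theorem subst_level' (hN : 1 ≤ N) {Φ : ℝ → ℝ} (h0 : ∀ p, 1 ≤ p → Φ p = 0) :
    ∫ s in Ioi (0 : ℝ), 2 * N * Φ (1 - 2 * N * s) = ∫ p, Φ p := by
  have hN0 : (0 : ℝ) < N := by exact_mod_cast hN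
  have e1 : ∫ s in Ioi (0 : ℝ), 2 * N * Φ (1 - 2 * N * s) = ∫ s, 2 * N * Φ (1 - 2 * N * s) := by
    refine setIntegral_eq_integral_of_forall_compl_eq_zero fun s hs => ?_
    have hs' : s ≤ 0 := not_lt.1 hs
    rw [h0, mul_zero]
    nlinarith [mul_nonneg hN0.le (neg_nonneg.2 hs')]
  have e2 : ∫ s, Φ (1 - 2 * N * s) = |(2 * (N : ℝ))⁻¹| • ∫ y, Φ (1 - y) :=
    Measure.integral_comp_mul_left (fun y => Φ (1 - y)) (2 * (N : ℝ))
  rw [e1, integral_const_mul, e2, integral_sub_left_eq_self Φ volume 1, smul_eq_mul,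
    abs_of_pos (by positivity), ← mul_assoc, mul_inv_cancel₀ (by positivity), one_mul]

theorem subst_level (hN : 1 ≤ N) {Φ : ℝ → ℝ} {a c : ℝ} (hac : a ≤ c) (hc : c ≤ 1)
    (h0 : ∀ p, p ∉ Ioo a c → Φ p = 0) :
    ∫ s in Ioi (0 : ℝ), 2 * N * Φ (1 - 2 * N * s) = ∫ p in a..c, Φ p := by
  rw [subst_level' hN fun p hp => h0 p fun h => by linarith [h.2],
    intervalIntegral.integral_of_le hac, integral_Ioc_eq_integral_Ioo]
  exact (setIntegral_eq_integral_of_forall_compl_eq_zero fun p hp => h0 p hp).symm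

/-- sublevel sets of `Q = 1 - 2 N w` -/
def Ep (w : E N → ℝ) (p : ℝ) : Set (E N) := {y | 1 - 2 * N * w y < p}

theorem Ep_level (hN : 1 ≤ N) (w : E N → ℝ) (s : ℝ) : {y | s < w y} = Ep w (1 - 2 * N * s) := by
  have hN0 : (0 : ℝ) < N := by exact_mod_cast hN
  ext y
  simp only [Ep, mem_ofPred_eq]
  constructor
  · intro h
    nlinarith
  · intro h
    by_contra h2
    nlinarith [not_lt.1 h2]

theorem Ep_meas {w : E N → ℝ} (hw : Measurable w) (p : ℝ) : MeasurableSet (Ep w p) :=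
  measurableSet_lt (measurable_const.sub (measurable_const.mul hw)) measurable_const

/-- integrability in `p` -/
theorem int_level {w : E N → ℝ} (hw : Measurable w) {Ω : Set (E N)} (hΩ : volume Ω ≠ ⊤)
    (hsub : ∀ p ≤ 1, Ep w p ⊆ Ω) {f : ℝ × E N → ℝ} (hf : Measurable f) {C : ℝ}
    (hC : ∀ q, |f q| ≤ C) {th' : ℝ → ℝ} (hth : Measurable th') {D : ℝ} (hD : ∀ p, |th' p| ≤ D) :
    IntervalIntegrable (fun p => th' p * ∫ y in Ep w p, f (p, y)) volume (1 / 4) (1 / 2) := by
  have hC0 : 0 ≤ C := (abs_nonneg _).trans (hC (0, 0))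
  have hD0 : 0 ≤ D := (abs_nonneg _).trans (hD 0)
  set S : Set (ℝ × E N) := {q | 1 - 2 * N * w q.2 < q.1} with hS
  have hSm : MeasurableSet S :=
    measurableSet_lt (measurable_const.sub (measurable_const.mul (hw.comp measurable_snd)))
      measurable_fst
  have e : ∀ p, ∫ y in Ep w p, f (p, y) = ∫ y, S.indicator f (p, y) := by
    intro p
    rw [← integral_indicator (Ep_meas hw p)]
    refine integral_congr_ae (Eventually.of_forall fun y => ?_)
    by_cases hy : y ∈ Ep w p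
    · have : (p, y) ∈ S := hy
      simp only []
      rw [indicator_of_mem hy, indicator_of_mem this]
    · have : (p, y) ∉ S := hy
      simp only []
      rw [indicator_of_notMem hy, indicator_of_notMem this]
  have hm : Measurable fun p => ∫ y in Ep w p, f (p, y) := by
    have h1 : StronglyMeasurable (S.indicator f) := (hf.indicator hSm).stronglyMeasurable
    have h2 := h1.integral_prod_right' (ν := (volume : Measure (E N)))
    have h3 : (fun p => ∫ y in Ep w p, f (p, y)) = fun p => ∫ y, S.indicator f (p, y) := funext e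
    rw [h3]
    exact h2.measurable
  refine (intervalIntegrable_const (c := D * (C * volume.real Ω))).mono_fun'
    (hth.mul hm).aestronglyMeasurable ?_
  rw [uIoc_of_le (by norm_num)]
  filter_upwards [ae_restrict_mem measurableSet_Ioc] with p hp
  rw [norm_mul]
  have hsubp := hsub p (by linarith [hp.2])
  refine mul_le_mul (hD p) ?_ (norm_nonneg _) hD0
  refine (norm_setIntegral_le_of_norm_le_const ((measure_mono hsubp).trans_lt hΩ.lt_top)
    (fun y _ => hC (p, y))).trans ?_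
  exact mul_le_mul_of_nonneg_left (measureReal_mono hsubp hΩ) hC0

theorem vol_ball (b : E N) {r : ℝ} (hr : 0 < r) : volume.real (ball b r) = om N * r ^ N := by
  unfold om Measure.real
  rw [Measure.addHaar_ball_of_pos volume b hr, ENNReal.toReal_mul, finrank_euclideanSpace_fin,
    ENNReal.toReal_ofReal (by positivity), mul_comm]

theorem vol_cball (b : E N) {r : ℝ} (hr : 0 ≤ r) :
    volume.real (closedBall b r) = om N * r ^ N := by
  unfold om Measure.real
  rw [Measure.addHaar_closedBall volume b hr, ENNReal.toReal_mul, finrank_euclideanSpace_fin,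
    ENNReal.toReal_ofReal (by positivity), mul_comm]

/-! ## the main inequality for one profile -/

theorem om_pos (N : ℕ) : 0 < om N := by
  unfold om Measure.real
  exact ENNReal.toReal_pos (measure_ball_pos volume 0 one_pos).ne' measure_ball_lt_top.ne

theorem T2_radial (w : E N → ℝ) (b : E N) (m : ℝ → ℝ) :
    T2 N w b m = ∫ s in Ioi (0 : ℝ), (N * kp N (1 - 2 * N * s)) * ∫ y in {y | s < w y},
          (N * m (‖y - b‖ ^ 2 / (1 - 2 * N * s)) +
            2 * (‖y - b‖ ^ 2 / (1 - 2 * N * s)) * deriv m (‖y - b‖ ^ 2 / (1 - 2 * N * s))) := by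
  unfold T2
  refine setIntegral_congr_fun measurableSet_Ioi fun s _ => ?_
  rw [← integral_const_mul]
  refine integral_congr_ae (Eventually.of_forall fun y => ?_)
  simp only [F2]
  by_cases hp : 1 - 2 * N * s ≤ 1 / 4
  · rw [kp_zero N hp]; ring
  · rw [qq_eq (by linarith [not_le.1 hp])]
    ring

/-- Euler-Lagrange hypothesis -/
def HEL (w : E N → ℝ) (g : E N → E N) : Prop :=
  ∀ ψ : ℝ → ℝ, ContDiff ℝ 1 ψ → ψ 0 = 0 → ∀ C : ℝ, (∀ s, |deriv ψ s| ≤ C) →
      ∫ x, deriv ψ (w x) * ‖g x‖ ^ 2 = ∫ x, ψ (w x)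

/-- radial integration by parts hypothesis -/
def HRP (w : E N → ℝ) (g : E N → E N) (b : E N) : Prop :=
  ∀ (a m : ℝ → ℝ) (q : ℝ), 0 < q → Continuous a →
    (∀ s, 1 - 2 * N * s ≤ q → a s = 0) → ContDiff ℝ 1 m →
    ∀ M : ℝ, (∀ t, |t| ≥ M → m t = 0) →
    ∫ y, a (w y) * m (‖y - b‖ ^ 2 / (1 - 2 * N * w y)) * (inner ℝ (g y) (y - b)) =
      - ∫ s in Ioi (0 : ℝ), a s * ∫ y in {y | s < w y},
          (N * m (‖y - b‖ ^ 2 / (1 - 2 * N * s)) +
            2 * (‖y - b‖ ^ 2 / (1 - 2 * N * s)) * deriv m (‖y - b‖ ^ 2 / (1 - 2 * N * s)))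

theorem T2_one {w : E N → ℝ} {g : E N → E N} (hw : Measurable w)
    (h0 : ∀ x, 0 ≤ w x) (hi : Integrable w) (b : E N) (hEL : HEL w g) :
    T2 N w b (fun _ => 1) = ∫ x, (N : ℝ) ^ 2 * kp N (1 - 2 * N * w x) * ‖g x‖ ^ 2 := by
  set a : ℝ → ℝ := fun s => (N : ℝ) ^ 2 * kp N (1 - 2 * N * s) with ha
  have hac : Continuous a := by
    have : Continuous fun s : ℝ => kp N (1 - 2 * N * s) := (kp_cont N).comp (by fun_prop)
    exact continuous_const.mul this
  set ψ : ℝ → ℝ := fun s => ∫ t in (0 : ℝ)..s, a t with hψ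
  have hd : ∀ s, HasDerivAt ψ (a s) s := fun s => (hac.integral_hasStrictDerivAt 0 s).hasDerivAt
  have hde : deriv ψ = a := funext fun s => (hd s).deriv
  have hψ1 : ContDiff ℝ 1 ψ := by
    rw [contDiff_one_iff_deriv, hde]
    exact ⟨fun s => (hd s).differentiableAt, hac⟩
  have hab : ∀ s, |a s| ≤ (N : ℝ) ^ 2 * (4 * 2 ^ N) := by
    intro s
    simp only [ha]
    rw [abs_mul, abs_of_nonneg (kp_nonneg N _), abs_of_nonneg (by positivity)]
    exact mul_le_mul_of_nonneg_left (kp_le N _) (by positivity)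
  have h1 := hEL ψ hψ1 (by simp [hψ]) _ (fun s => by rw [hde]; exact hab s)
  rw [hde] at h1
  have h2 : ∫ x, (N : ℝ) ^ 2 * kp N (1 - 2 * N * w x) * ‖g x‖ ^ 2 = ∫ x, ψ (w x) := h1
  rw [h2]
  have hFm : Measurable (Function.uncurry fun (s : ℝ) (_ : E N) => a s) :=
    hac.measurable.comp measurable_fst
  obtain ⟨-, -, h3⟩ := layer hw h0 hi hFm (fun s _ => hab s)
  simp only [hψ]
  rw [h3]
  unfold T2
  refine setIntegral_congr_fun measurableSet_Ioi fun s _ => ?_
  refine integral_congr_ae (Eventually.of_forall fun y => ?_)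
  simp only [F2, ha, deriv_const', mul_zero, add_zero]
  ring

theorem gnorm_int {Ω : Set (E N)} (hfin : volume Ω ≠ ⊤) {g : E N → E N} (hg : Measurable g)
    (hgi : Integrable (fun x => ‖g x‖ ^ 2)) : IntegrableOn (fun x => ‖g x‖) Ω := by
  have h1 : IntegrableOn (fun _ : E N => (1 : ℝ)) Ω := integrableOn_const hfin
  refine (h1.add hgi.integrableOn).mono' hg.norm.aestronglyMeasurable
    (Eventually.of_forall fun x => ?_)
  rw [norm_norm]
  simp only [Pi.add_apply]
  nlinarith [sq_nonneg (‖g x‖ - 1)]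

theorem bdd_int {Ω : Set (E N)} (hfin : volume Ω ≠ ⊤) {f : E N → ℝ} (hf : Measurable f) {C : ℝ}
    (hC : ∀ x, |f x| ≤ C) : IntegrableOn f Ω :=
  Measure.integrableOn_of_bounded hfin hf.aestronglyMeasurable
    (Eventually.of_forall fun x => hC x)

theorem one_profile (hN : 1 ≤ N) {Ω : Set (E N)} {w : E N → ℝ} {g : E N → E N}
    (hfin : volume Ω ≠ ⊤)
    (hw : Measurable w) (hg : Measurable g) (h0 : ∀ x, 0 ≤ w x) (hw0 : ∀ x, x ∉ Ω → w x = 0)
    (hg0 : ∀ x, x ∉ Ω → g x = 0) (hi : Integrable w) (hgi : Integrable (fun x => ‖g x‖ ^ 2))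
    (b : E N) (hEL : HEL w g) (hRP : HRP w g b) {m : ℝ → ℝ} {C : ℝ} (hm : Prof m C)
    (hm0 : ∀ t, 0 ≤ m t) (hm2 : ∀ t, m t ≤ 2) (hm1 : ∀ t, m t ≠ 0 → |t| < 1) :
    (1 / 2) * (volume.real Ω - T1 N w b (fun _ => 1)) -
      2 ^ (N + 1) * (∫ y in Ω, |Real.sqrt (1 - 2 * N * w y) - N * ‖g y‖|) + T1 N w b m ≤
      ∫ y in Ω, m (‖y - b‖ ^ 2) := by
  have hN0 : (0 : ℝ) < N := by exact_mod_cast hN
  set Q : E N → ℝ := fun y => 1 - 2 * N * w y with hQ
  have hQm : Measurable Q := measurable_const.sub (measurable_const.mul hw)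
  have hQ1 : ∀ y, Q y ≤ 1 := fun y => by
    have := h0 y
    simp only [hQ]
    nlinarith [mul_nonneg hN0.le this]
  have hQout : ∀ y, y ∉ Ω → Q y = 1 := fun y hy => by simp [hQ, hw0 y hy]
  set v : E N → E N := fun y => y - b with hv
  have hvm : Measurable v := measurable_id.sub_const b
  set x : E N → ℝ := fun y => ‖v y‖ ^ 2 / qq (Q y) with hx
  have hxm : Measurable x := (hvm.norm.pow_const 2).div (qq_cont.measurable.comp hQm)
  have hmm : Measurable m := hm.smooth.continuous.measurable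
  -- the level identity for `m`
  obtain ⟨-, L1⟩ := level_id hN hw h0 hi b hm
  have P1m : Prof (fun _ : ℝ => (1 : ℝ)) 1 :=
    ⟨contDiff_const, fun x => by simp, fun x => by simp⟩
  obtain ⟨-, L0⟩ := level_id hN hw h0 hi b P1m
  -- integrability on `Ω`
  have im : IntegrableOn (fun y => m (‖y - b‖ ^ 2)) Ω :=
    bdd_int hfin (hmm.comp (hvm.norm.pow_const 2)) fun y => hm.bdd _
  have ikm : IntegrableOn (fun y => ka N (Q y) * m (x y)) Ω := by
    refine bdd_int hfin (((ka_cont N).measurable.comp hQm).mul (hmm.comp hxm))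
      (C := 2 ^ N * C) fun y => ?_
    rw [abs_mul, abs_of_nonneg (ka_nonneg N _)]
    exact mul_le_mul (ka_le N _) (hm.bdd _) (abs_nonneg _) (by positivity)
  have ik : IntegrableOn (fun y => ka N (Q y)) Ω := by
    refine bdd_int hfin ((ka_cont N).measurable.comp hQm) (C := 2 ^ N) fun y => ?_
    rw [abs_of_nonneg (ka_nonneg N _)]
    exact ka_le N _
  have ig := gnorm_int hfin hg hgi
  have ikg : IntegrableOn (fun y => (N : ℝ) ^ 2 * kp N (Q y) * ‖g y‖ ^ 2) Ω := by
    have h1 : IntegrableOn (fun y => ((N : ℝ) ^ 2 * (4 * 2 ^ N)) * ‖g y‖ ^ 2) Ω :=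
      hgi.integrableOn.const_mul _
    refine h1.mono' ((measurable_const.mul ((kp_cont N).measurable.comp hQm)).mul
      (hg.norm.pow_const 2)).aestronglyMeasurable (Eventually.of_forall fun y => ?_)
    rw [norm_mul, norm_mul, Real.norm_of_nonneg (kp_nonneg N _),
      Real.norm_of_nonneg (by positivity : (0 : ℝ) ≤ (N : ℝ) ^ 2),
      Real.norm_of_nonneg (by positivity : (0 : ℝ) ≤ ‖g y‖ ^ 2)]
    exact mul_le_mul_of_nonneg_right (mul_le_mul_of_nonneg_left (kp_le N _) (by positivity))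
      (by positivity)
  have iab : IntegrableOn (fun y => |Real.sqrt (Q y) - N * ‖g y‖|) Ω := by
    have h1 : IntegrableOn (fun y => 1 + N * ‖g y‖) Ω :=
      (integrableOn_const hfin).add (ig.const_mul _)
    refine h1.mono' ((hQm.sqrt.sub (measurable_const.mul hg.norm)).abs.aestronglyMeasurable)
      (Eventually.of_forall fun y => ?_)
    rw [Real.norm_eq_abs, abs_abs]
    have h2 : Real.sqrt (Q y) ≤ 1 := Real.sqrt_le_one.2 (hQ1 y)
    have h3 := Real.sqrt_nonneg (Q y)
    have h4 : 0 ≤ N * ‖g y‖ := by positivity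
    exact abs_le.2 ⟨by linarith, by linarith⟩
  have iin : IntegrableOn (fun y => N * kp N (Q y) * m (x y) * inner ℝ (g y) (v y)) Ω := by
    have h1 : IntegrableOn (fun y => (N * (4 * 2 ^ N) * 2) * ‖g y‖) Ω := ig.const_mul _
    refine h1.mono' (((measurable_const.mul ((kp_cont N).measurable.comp hQm)).mul
      (hmm.comp hxm)).mul (hg.inner hvm)).aestronglyMeasurable
      (Eventually.of_forall fun y => ?_)
    by_cases hz : kp N (Q y) * m (x y) = 0
    · have : N * kp N (Q y) * m (x y) * inner ℝ (g y) (v y) = 0 := by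
        rw [mul_assoc (N : ℝ), hz]; ring
      rw [this, norm_zero]
      positivity
    · have hk : kp N (Q y) ≠ 0 := left_ne_zero_of_mul hz
      have hmx : m (x y) ≠ 0 := right_ne_zero_of_mul hz
      have hQ4 : 1 / 4 < Q y := by
        by_contra h
        exact hk (kp_zero N (not_lt.1 h))
      have hq : qq (Q y) = Q y := qq_eq (by linarith)
      have h2 := hm1 _ hmx
      have h3 : ‖v y‖ ≤ 1 := by
        have h4 : ‖v y‖ ^ 2 / Q y < 1 := by
          have := lt_of_abs_lt h2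
          simp only [hx, hq] at this
          exact this
        rw [div_lt_one (by linarith)] at h4
        have := hQ1 y
        nlinarith [norm_nonneg (v y)]
      rw [norm_mul, norm_mul, norm_mul, Real.norm_of_nonneg (kp_nonneg N _),
        Real.norm_of_nonneg (hm0 _), Real.norm_of_nonneg hN0.le]
      have h5 : ‖(inner ℝ (g y) (v y) : ℝ)‖ ≤ ‖g y‖ := by
        refine (abs_real_inner_le_norm _ _).trans ?_
        nlinarith [norm_nonneg (g y)]
      have h6 := kp_nonneg N (Q y)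
      have h7 := hm0 (x y)
      exact mul_le_mul (mul_le_mul (mul_le_mul_of_nonneg_left (kp_le N _) hN0.le) (hm2 _) h7
        (by positivity)) h5 (norm_nonneg _) (by positivity)
  -- rewrite the identities on `Ω`
  have R1 : ∫ y, (m (‖y - b‖ ^ 2) - ka N (1 - 2 * N * w y) *
      m (‖y - b‖ ^ 2 / qq (1 - 2 * N * w y))) =
      (∫ y in Ω, m (‖y - b‖ ^ 2)) - ∫ y in Ω, ka N (Q y) * m (x y) := by
    rw [← integral_sub im ikm]
    refine (setIntegral_eq_integral_of_forall_compl_eq_zero fun y hy => ?_).symm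
    have h1 := hQout y hy
    change m (‖y - b‖ ^ 2) - ka N (Q y) * m (‖y - b‖ ^ 2 / qq (Q y)) = 0
    rw [h1, ka_one, qq_eq (by norm_num), div_one, one_mul, sub_self]
  have R0 : ∫ y, ((fun _ : ℝ => (1 : ℝ)) (‖y - b‖ ^ 2) - ka N (1 - 2 * N * w y) *
      (fun _ : ℝ => (1 : ℝ)) (‖y - b‖ ^ 2 / qq (1 - 2 * N * w y))) =
      volume.real Ω - ∫ y in Ω, ka N (Q y) := by
    have h1 : volume.real Ω = ∫ _ in Ω, (1 : ℝ) := by simp
    have ic : IntegrableOn (fun _ : E N => (1 : ℝ)) Ω := integrableOn_const hfin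
    rw [h1, ← integral_sub ic ik]
    simp only [mul_one]
    refine (setIntegral_eq_integral_of_forall_compl_eq_zero fun y hy => ?_).symm
    have h1 := hQout y hy
    change 1 - ka N (Q y) = 0
    rw [h1, ka_one, sub_self]
  have R2 : ∫ y in Ω, N * kp N (Q y) * m (x y) * inner ℝ (g y) (v y) = -T2 N w b m := by
    have h1 := hRP (fun s => N * kp N (1 - 2 * N * s)) m (1 / 4) (by norm_num)
      (continuous_const.mul ((kp_cont N).comp (by fun_prop)))
      (fun s hs => by rw [kp_zero N hs, mul_zero]) hm.smooth 1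
      (fun t ht => by
        by_contra hne
        exact absurd (hm1 t hne) (not_lt.2 ht))
    rw [T2_radial, ← h1]
    rw [setIntegral_eq_integral_of_forall_compl_eq_zero]
    · refine integral_congr_ae (Eventually.of_forall fun y => ?_)
      simp only [hx, hv]
      by_cases hp : Q y ≤ 1 / 4
      · rw [kp_zero N hp]; ring
      · rw [qq_eq (by linarith [not_le.1 hp])]
    · intro y hy
      rw [hg0 y hy, inner_zero_left, mul_zero]
  have R3 : ∫ y in Ω, (N : ℝ) ^ 2 * kp N (Q y) * ‖g y‖ ^ 2 = T2 N w b (fun _ => 1) := by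
    rw [T2_one hw h0 hi b hEL]
    refine setIntegral_eq_integral_of_forall_compl_eq_zero fun y hy => ?_
    rw [hg0 y hy]
    simp
  -- the pointwise inequality, integrated
  have ikk : IntegrableOn (fun y => ka N (Q y) - (N : ℝ) ^ 2 * kp N (Q y) * ‖g y‖ ^ 2) Ω :=
    ik.sub ikg
  have ikk2 : IntegrableOn (fun y => (1 / 2) * (ka N (Q y) -
      (N : ℝ) ^ 2 * kp N (Q y) * ‖g y‖ ^ 2)) Ω := ikk.const_mul _
  have iab2 : IntegrableOn (fun y => 2 ^ (N + 1) * |Real.sqrt (Q y) - N * ‖g y‖|) Ω :=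
    iab.const_mul _
  have PW : ∫ y in Ω, ((1 / 2) * (ka N (Q y) - (N : ℝ) ^ 2 * kp N (Q y) * ‖g y‖ ^ 2) -
      2 ^ (N + 1) * |Real.sqrt (Q y) - N * ‖g y‖|) ≤
      ∫ y in Ω, (ka N (Q y) * m (x y) + N * kp N (Q y) * m (x y) * inner ℝ (g y) (v y)) := by
    refine setIntegral_mono (ikk2.sub iab2) (ikm.add iin) fun y => ?_
    refine ptwise (g y) (v y) (hm0 _) (hm2 _) fun h => ?_
    exact lt_of_abs_lt (hm1 _ h)
  have E1 : ∫ y in Ω, ((1 / 2) * (ka N (Q y) - (N : ℝ) ^ 2 * kp N (Q y) * ‖g y‖ ^ 2) -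
      2 ^ (N + 1) * |Real.sqrt (Q y) - N * ‖g y‖|) =
      (1 / 2) * ((∫ y in Ω, ka N (Q y)) - ∫ y in Ω, (N : ℝ) ^ 2 * kp N (Q y) * ‖g y‖ ^ 2) -
      2 ^ (N + 1) * ∫ y in Ω, |Real.sqrt (Q y) - N * ‖g y‖| := by
    rw [integral_sub ikk2 iab2, integral_const_mul, integral_const_mul, integral_sub ik ikg]
  have E2 : ∫ y in Ω, (ka N (Q y) * m (x y) + N * kp N (Q y) * m (x y) * inner ℝ (g y) (v y)) =
      (∫ y in Ω, ka N (Q y) * m (x y)) +
        ∫ y in Ω, N * kp N (Q y) * m (x y) * inner ℝ (g y) (v y) := integral_add ikm iin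
  rw [E1, E2, R2, R3] at PW
  rw [R1] at L1
  rw [R0] at L0
  linarith

/-! ## level integrals in the variable `p` -/

theorem T1_eq (hN : 1 ≤ N) (w : E N → ℝ) (b : E N) (m : ℝ → ℝ) :
    T1 N w b m = ∫ p in (1 / 4 : ℝ)..(1 / 2), th N p * ∫ y in Ep w p, m (‖y - b‖ ^ 2 / qq p) := by
  rw [← subst_level hN (Φ := fun p => th N p * ∫ y in Ep w p, m (‖y - b‖ ^ 2 / qq p))
    (by norm_num) (by norm_num) (fun p hp => by
      unfold th; rw [indicator_of_notMem hp, zero_mul])]
  unfold T1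
  refine setIntegral_congr_fun measurableSet_Ioi fun s _ => ?_
  simp only [F1]
  rw [Ep_level hN w s, integral_const_mul, integral_const_mul]

theorem T1_one (hN : 1 ≤ N) (w : E N → ℝ) (b : E N) :
    T1 N w b (fun _ => 1) =
      ∫ p in (1 / 4 : ℝ)..(1 / 2), th N p * volume.real (Ep w p) := by
  rw [T1_eq hN]
  simp

/-- the bump profile -/
theorem exists_profile {r : ℝ} (hr0 : 0 < r) (hr1 : r < 1) : ∃ (m : ℝ → ℝ) (C : ℝ), Prof m C ∧
    (∀ t, 0 ≤ m t) ∧ (∀ t, m t ≤ 2) ∧ (∀ t, m t ≠ 0 → |t| < 1) ∧ (∀ t, |t| ≤ r → m t = 2) := by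
  let f : ContDiffBump (0 : ℝ) := ⟨r, 1, hr0, hr1⟩
  have hs : ContDiff ℝ 1 (fun t => 2 * f t) := contDiff_const.mul f.contDiff
  have hc : HasCompactSupport (fun t => 2 * f t) := f.hasCompactSupport.mul_left
  have hcd : Continuous (fun t => t * deriv (fun t => 2 * f t) t) :=
    continuous_id.mul (hs.continuous_deriv le_rfl)
  have hcc : HasCompactSupport (fun t => t * deriv (fun t => 2 * f t) t) := hc.deriv.mul_left
  obtain ⟨C, hC⟩ := hcc.exists_bound_of_continuous hcd
  have hf0 : ∀ t, 0 ≤ f t := fun t => f.nonneg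
  have hf1 : ∀ t, f t ≤ 1 := fun t => f.le_one
  refine ⟨fun t => 2 * f t, max 2 C, ⟨hs, fun t => ?_, fun t => ?_⟩, fun t => ?_, fun t => ?_,
    fun t ht => ?_, fun t ht => ?_⟩
  · refine le_max_of_le_left ?_
    rw [abs_of_nonneg (by linarith [hf0 t])]
    linarith [hf1 t]
  · exact le_max_of_le_right (hC t)
  · linarith [hf0 t]
  · linarith [hf1 t]
  · by_contra h
    apply ht
    have : f t = 0 := f.zero_of_le_dist (by simpa [f] using not_lt.1 h)
    simp only [this, mul_zero]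
  · have : f t = 1 := f.one_of_mem_closedBall (by simpa [f] using ht)
    simp only [this, mul_one]

theorem cs_set {Ω : Set (E N)} (hfin : volume Ω ≠ ⊤) (hpos : 0 < volume.real Ω) {f : E N → ℝ}
    (hf : IntegrableOn (fun y => |f y|) Ω) (hf2 : IntegrableOn (fun y => f y ^ 2) Ω) :
    (∫ y in Ω, |f y|) ^ 2 ≤ volume.real Ω * ∫ y in Ω, f y ^ 2 := by
  set V := volume.real Ω with hV
  set I := ∫ y in Ω, |f y| with hI
  set t := I / V with ht
  have ic : IntegrableOn (fun _ : E N => t ^ 2) Ω := integrableOn_const hfin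
  have h1 : 0 ≤ ∫ y in Ω, (|f y| - t) ^ 2 := integral_nonneg fun y => sq_nonneg _
  have h2 : ∫ y in Ω, (|f y| - t) ^ 2 = (∫ y in Ω, f y ^ 2) - 2 * t * I + t ^ 2 * V := by
    have e : ∀ y, (|f y| - t) ^ 2 = f y ^ 2 - 2 * t * |f y| + t ^ 2 := fun y => by
      rw [← sq_abs (f y)]; ring
    simp only [e]
    have i2 : IntegrableOn (fun y => 2 * t * |f y|) Ω := hf.const_mul _
    have i3 : IntegrableOn (fun y => f y ^ 2 - 2 * t * |f y|) Ω := hf2.sub i2
    rw [integral_add i3 ic, integral_sub hf2 i2, integral_const_mul]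
    simp only [integral_const, MeasurableSet.univ, measureReal_restrict_apply, univ_inter,
      smul_eq_mul]
    ring
  rw [h2] at h1
  have h3 : t * V = I := by rw [ht]; field_simp
  have h4 : 0 ≤ V * ((∫ y in Ω, f y ^ 2) - 2 * t * I + t ^ 2 * V) := mul_nonneg hpos.le h1
  nlinarith

end Pool.Agent.Helper37.FK
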