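import Pool.Agent.Helper37.FK.PartI

/-! # M5: the final estimate -/

open MeasureTheory Metric Set Filter Topology
open scoped ENNReal

namespace Pool.Agent.Helper37.FK
open Pool.Agent.Helper71.FK
variable {N : ℕ}

/-- level volume functions are interval integrable against bounded weights -/
theorem int_vol {w : E N → ℝ} (hw : Measurable w) {Ω : Set (E N)} (hΩ : volume Ω ≠ ⊤)
    (hsub : ∀ p ≤ 1, Ep w p ⊆ Ω) (b : E N) {th' : ℝ → ℝ} (hth : Measurable th') {D : ℝ}
    (hD : ∀ p, |th' p| ≤ D) :
    IntervalIntegrable (fun p => th' p * volume.real (Ep w p ∩ ball b (Real.sqrt p)))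
      volume (1 / 4) (1 / 2) := by
  set S : Set (ℝ × E N) := {q | dist q.2 b < Real.sqrt q.1} with hS
  have hSm : MeasurableSet S := by
    refine measurableSet_lt ?_ (Real.continuous_sqrt.measurable.comp measurable_fst)
    exact (measurable_snd.dist measurable_const)
  have h := int_level hw hΩ hsub (f := S.indicator fun _ => (1 : ℝ))
    (measurable_const.indicator hSm) (C := 1) (fun q => by
      by_cases hq : q ∈ S
      · rw [indicator_of_mem hq]; simp
      · rw [indicator_of_notMem hq]; simp) hth hD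
  refine h.congr ?_
  refine fun p _ => ?_
  simp only []
  congr 1
  have e : ∀ y, S.indicator (fun _ => (1 : ℝ)) (p, y) =
      (ball b (Real.sqrt p)).indicator (fun _ => (1 : ℝ)) y := fun y => rfl
  simp only [e]
  rw [setIntegral_indicator measurableSet_ball]
  simp

theorem int_vole {w : E N → ℝ} (hw : Measurable w) {Ω : Set (E N)} (hΩ : volume Ω ≠ ⊤)
    (hsub : ∀ p ≤ 1, Ep w p ⊆ Ω) {th' : ℝ → ℝ} (hth : Measurable th') {D : ℝ}
    (hD : ∀ p, |th' p| ≤ D) :
    IntervalIntegrable (fun p => th' p * volume.real (Ep w p)) volume (1 / 4) (1 / 2) := by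
  have h := int_level hw hΩ hsub (f := fun _ => (1 : ℝ)) measurable_const (C := 1)
    (fun q => by simp) hth hD
  refine h.congr ?_
  refine fun p _ => ?_
  simp

theorem ii_beta {th' : ℝ → ℝ} (hth : Measurable th') {D : ℝ} (hD : ∀ p, |th' p| ≤ D)
    (N : ℕ) (a c : ℝ) :
    IntervalIntegrable (fun p => th' p * (om N * Real.sqrt p ^ N)) volume a c := by
  have hc : Continuous fun p : ℝ => om N * Real.sqrt p ^ N := by fun_prop
  refine IntervalIntegrable.mono_fun' ((hc.norm.const_mul D).intervalIntegrable a c)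
    (hth.mul hc.measurable).aestronglyMeasurable (Eventually.of_forall fun p => ?_)
  simp only []
  rw [norm_mul]
  exact mul_le_mul_of_nonneg_right (hD p) (norm_nonneg _)

/-- integral of the volumes of the balls -/
theorem int_sqrt_pow (N : ℕ) : ∫ p in (0 : ℝ)..1, Real.sqrt p ^ N = 2 / (N + 2) := by
  have e : ∫ p in (0 : ℝ)..1, Real.sqrt p ^ N = ∫ p in (0 : ℝ)..1, p ^ ((N : ℝ) / 2) := by
    refine intervalIntegral.integral_congr fun p hp => ?_
    rw [uIcc_of_le (by norm_num)] at hp
    rw [Real.sqrt_eq_rpow, ← Real.rpow_natCast, ← Real.rpow_mul hp.1]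
    congr 1
    ring
  rw [e, integral_rpow (Or.inl (by
    have : (0 : ℝ) ≤ N := by positivity
    linarith))]
  rw [Real.one_rpow, Real.zero_rpow (by positivity)]
  field_simp
  ring

theorem th_beta {N : ℕ} {p : ℝ} (hp : p ∈ Ioo (1 / 4 : ℝ) (1 / 2)) :
    th N p * (om N * Real.sqrt p ^ N) = 4 * om N := by
  unfold th
  rw [indicator_of_mem hp]
  have := rh_sqrt N (p := p) (by linarith [hp.1])
  linear_combination (4 * om N) * this

/-- the excess of the level sets -/
theorem excess (hN : 1 ≤ N) {w : E N → ℝ} (hw : Measurable w) (h0 : ∀ x, 0 ≤ w x)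
    (hi : Integrable w)
    (hTal : ∀ s, 0 ≤ s → volume.real {x | s < w x} ≤ om N * Real.sqrt (1 - 2 * N * s) ^ N) :
    ∫ p in (1 / 4 : ℝ)..(1 / 2), (om N * Real.sqrt p ^ N - volume.real (Ep w p)) ≤
      2 * N * (TB N 1 - ∫ x, w x) := by
  have hN0 : (0 : ℝ) < N := by exact_mod_cast hN
  -- the level set volume is bounded by the volume of the ball
  have hle : ∀ p, p ≤ 1 → volume.real (Ep w p) ≤ om N * Real.sqrt p ^ N := by
    intro p hp
    have h1 := hTal ((1 - p) / (2 * N)) (by
      have : 0 ≤ 1 - p := by linarith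
      positivity)
    rw [Ep_level hN] at h1
    have e : 1 - 2 * N * ((1 - p) / (2 * N)) = p := by field_simp; ring
    rwa [e] at h1
  have hzero : ∀ p, p ≤ 0 → volume.real (Ep w p) = 0 := by
    intro p hp
    have h1 := hle p (by linarith)
    rw [Real.sqrt_eq_zero_of_nonpos hp, zero_pow (by omega), mul_zero] at h1
    exact le_antisymm h1 measureReal_nonneg
  -- layer cake
  have hone : Measurable (Function.uncurry fun (_ : ℝ) (_ : E N) => (1 : ℝ)) := measurable_const
  obtain ⟨-, -, L⟩ := layer hw h0 hi hone (C := 1) (fun _ _ => by simp)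
  have L1 : ∫ y, w y = ∫ s in Ioi (0 : ℝ), volume.real (Ep w (1 - 2 * N * s)) := by
    have e1 : ∀ y, ∫ s in (0 : ℝ)..w y, (1 : ℝ) = w y := fun y => by simp
    simp only [e1] at L
    rw [L]
    refine setIntegral_congr_fun measurableSet_Ioi fun s _ => ?_
    rw [← Ep_level hN w s]
    simp
  have L2 : 2 * N * ∫ y, w y = ∫ p in (0 : ℝ)..1, volume.real (Ep w p) := by
    set Φ : ℝ → ℝ := (Ioo (0 : ℝ) 1).indicator fun p => volume.real (Ep w p) with hΦ
    have h1 := subst_level hN (Φ := Φ) (a := 0) (c := 1) (by norm_num) le_rfl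
      (fun p hp => indicator_of_notMem hp _)
    have h2 : ∫ p in (0 : ℝ)..1, Φ p = ∫ p in (0 : ℝ)..1, volume.real (Ep w p) := by
      rw [intervalIntegral.integral_of_le (by norm_num), intervalIntegral.integral_of_le
        (by norm_num), integral_Ioc_eq_integral_Ioo, integral_Ioc_eq_integral_Ioo]
      exact setIntegral_congr_fun measurableSet_Ioo fun p hp => indicator_of_mem hp _
    rw [← h2, ← h1, L1, ← integral_const_mul]
    refine setIntegral_congr_fun measurableSet_Ioi fun s hs => ?_
    have hs0 : 0 < s := hs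
    simp only [hΦ]
    by_cases hp : 0 < 1 - 2 * N * s
    · rw [indicator_of_mem]
      exact ⟨hp, by nlinarith⟩
    · rw [indicator_of_notMem (fun h => hp h.1), hzero _ (not_lt.1 hp)]
  -- integrability on `[0,1]`
  have hmE : Measurable fun p => volume.real (Ep w p) := by
    have hSm : MeasurableSet {q : ℝ × E N | 1 - 2 * N * w q.2 < q.1} :=
      measurableSet_lt (measurable_const.sub (measurable_const.mul (hw.comp measurable_snd)))
        measurable_fst
    exact (measurable_measure_prodMk_left (ν := (volume : Measure (E N))) hSm).ennreal_toReal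
  have hc : Continuous fun p : ℝ => om N * Real.sqrt p ^ N := by fun_prop
  have iE : IntervalIntegrable (fun p => volume.real (Ep w p)) volume 0 1 := by
    refine (hc.intervalIntegrable 0 1).mono_fun' hmE.aestronglyMeasurable ?_
    rw [uIoc_of_le (by norm_num)]
    filter_upwards [ae_restrict_mem measurableSet_Ioc] with p hp
    rw [Real.norm_of_nonneg measureReal_nonneg]
    exact hle p hp.2
  have iB := hc.intervalIntegrable (μ := volume) 0 1
  have iD := iB.sub iE
  have e1 : ∫ p in (0 : ℝ)..1, (om N * Real.sqrt p ^ N - volume.real (Ep w p)) =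
      2 * N * (TB N 1 - ∫ x, w x) := by
    rw [intervalIntegral.integral_sub iB iE, ← L2, intervalIntegral.integral_const_mul,
      int_sqrt_pow]
    unfold TB
    field_simp
    ring
  rw [← e1]
  have hnn : ∀ p ∈ Icc (0 : ℝ) 1, 0 ≤ om N * Real.sqrt p ^ N - volume.real (Ep w p) :=
    fun p hp => sub_nonneg.2 (hle p hp.2)
  refine intervalIntegral.integral_mono_interval (by norm_num) (by norm_num) (by norm_num) ?_ iD
  filter_upwards [ae_restrict_mem measurableSet_Ioc] with p hp
  exact hnn p ⟨hp.1.le, hp.2⟩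

theorem partI_of (hN : 1 ≤ N) {Ω : Set (E N)} {u : ℕ → E N → ℝ} {w : E N → ℝ}
    {g : E N → E N} (hp : Pair Ω u w g) (hV : volume Ω = ENNReal.ofReal (om N))
    (b : E N) {δ : ℝ} (hδ : δ = TB N 1 - ∫ x, w x)
    (hEL : HEL w g) (hRP : HRP w g b)
    (hTal : ∀ s, 0 ≤ s → volume.real {x | s < w x} ≤ om N * Real.sqrt (1 - 2 * N * s) ^ N)
    (hStar : ∫ x in Ω, (Real.sqrt (1 - 2 * N * w x) - N * ‖g x‖) ^ 2 ≤
      N * (N + 2) * (TB N 1 - ∫ x, w x)) :
    volume.real (symmDiff Ω (ball b 1)) ≤
      2 ^ (N + 2) * (∫ p in (1 / 4 : ℝ)..(1 / 2),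
        volume.real (symmDiff {y | 1 - 2 * N * w y < p} (ball b (Real.sqrt p)))) +
      2 ^ (N + 1) * Real.sqrt (om N * (N * (N + 2) * δ)) + 2 ^ (N + 2) * N * δ := by
  have hN0 : (0 : ℝ) < N := by exact_mod_cast hN
  have hom := om_pos N
  have hVr : volume.real Ω = om N := by
    unfold Measure.real
    rw [hV, ENNReal.toReal_ofReal hom.le]
  have hfin := hp.fin
  have hΩm : MeasurableSet Ω := hp.isOpen.measurableSet
  have hsub : ∀ p ≤ 1, Ep w p ⊆ Ω := by
    intro p hp1 y hy
    by_contra hout
    have hy' : 1 - 2 * N * w y < p := hy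
    rw [hp.w0 y hout] at hy'
    linarith
  have hEfin : ∀ p ≤ 1, volume (Ep w p) ≠ ⊤ := fun p hp1 =>
    ((measure_mono (hsub p hp1)).trans_lt hfin.lt_top).ne
  have hEm : ∀ p, MeasurableSet (Ep w p) := Ep_meas hp.wm
  have hle : ∀ p, p ≤ 1 → volume.real (Ep w p) ≤ om N * Real.sqrt p ^ N := by
    intro p hp
    have h1 := hTal ((1 - p) / (2 * N)) (by
      have : 0 ≤ 1 - p := by linarith
      positivity)
    rw [Ep_level hN] at h1
    have e : 1 - 2 * N * ((1 - p) / (2 * N)) = p := by field_simp; ring
    rwa [e] at h1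
  -- abbreviations
  set S := ∫ x in Ω, (Real.sqrt (1 - 2 * N * w x) - N * ‖g x‖) ^ 2 with hS
  set I := ∫ x in Ω, |Real.sqrt (1 - 2 * N * w x) - N * ‖g x‖| with hI
  set ev : ℝ → ℝ := fun p => volume.real (Ep w p) with hev
  set iv : ℝ → ℝ := fun p => volume.real (Ep w p ∩ ball b (Real.sqrt p)) with hiv
  set bv : ℝ → ℝ := fun p => om N * Real.sqrt p ^ N with hbv
  have hthm := th_meas N
  have hthD : ∀ p, |th N p| ≤ 2 ^ (N + 2) := fun p => by
    rw [abs_of_nonneg (th_nonneg N p)]; exact th_le N p
  have h1m : Measurable fun _ : ℝ => (1 : ℝ) := measurable_const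
  have h1D : ∀ _ : ℝ, |(1 : ℝ)| ≤ 1 := fun _ => by simp
  have ie := int_vole hp.wm hfin hsub hthm hthD
  have ii := int_vol hp.wm hfin hsub b hthm hthD
  have ib := ii_beta hthm hthD N (1 / 4) (1 / 2)
  have ie1 : IntervalIntegrable ev volume (1 / 4) (1 / 2) := by
    simpa using int_vole hp.wm hfin hsub h1m h1D
  have ii1 : IntervalIntegrable iv volume (1 / 4) (1 / 2) := by
    simpa using int_vol hp.wm hfin hsub b h1m h1D
  have ib1 : IntervalIntegrable bv volume (1 / 4) (1 / 2) := by
    simpa using ii_beta h1m h1D N (1 / 4) (1 / 2)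
  -- `∫ θ β = V`
  have hβ : ∫ p in (1 / 4 : ℝ)..(1 / 2), th N p * bv p = om N := by
    rw [intervalIntegral.integral_of_le (by norm_num), integral_Ioc_eq_integral_Ioo,
      setIntegral_congr_fun measurableSet_Ioo fun p hp => th_beta hp, setIntegral_const,
      smul_eq_mul]
    have : volume.real (Ioo (1 / 4 : ℝ) (1 / 2)) = 1 / 4 := by
      rw [Real.volume_real_Ioo_of_le (by norm_num)]; norm_num
    rw [this]
    ring
  -- volumes of the symmetric differences
  have hsd : ∀ p ∈ Icc (1 / 4 : ℝ) (1 / 2),
      volume.real (symmDiff {y | 1 - 2 * N * w y < p} (ball b (Real.sqrt p))) =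
        ev p + bv p - 2 * iv p := by
    intro p hp1
    have hp0 : 0 < p := by linarith [hp1.1]
    have hple : p ≤ 1 := by linarith [hp1.2]
    have hb : volume.real (ball b (Real.sqrt p)) = bv p := vol_ball b (Real.sqrt_pos.2 hp0)
    change volume.real (symmDiff (Ep w p) (ball b (Real.sqrt p))) = _
    have hbf : volume (ball b (Real.sqrt p)) ≠ ⊤ := measure_ball_lt_top.ne
    rw [measureReal_symmDiff_eq (hEm p) measurableSet_ball (hEfin p hple) hbf]
    have h1 := measureReal_inter_add_sdiff (μ := (volume : Measure (E N))) (s := Ep w p)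
      (t := ball b (Real.sqrt p)) measurableSet_ball (hEfin p hple)
    have h2 := measureReal_inter_add_sdiff (μ := (volume : Measure (E N)))
      (s := ball b (Real.sqrt p)) (t := Ep w p) (hEm p) hbf
    rw [inter_comm] at h2
    simp only [hev, hiv]
    linarith
  have hsdΩ : volume.real (symmDiff Ω (ball b 1)) = 2 * om N - 2 * volume.real (Ω ∩ ball b 1) := by
    have hb : volume.real (ball b 1) = om N := by
      have := vol_ball (N := N) b one_pos
      simpa using this
    have hbf : volume (ball b 1) ≠ ⊤ := measure_ball_lt_top.ne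
    rw [measureReal_symmDiff_eq hΩm measurableSet_ball hfin hbf]
    have h1 := measureReal_inter_add_sdiff (μ := (volume : Measure (E N))) (s := Ω)
      (t := ball b 1) measurableSet_ball hfin
    have h2 := measureReal_inter_add_sdiff (μ := (volume : Measure (E N)))
      (s := ball b 1) (t := Ω) hΩm hbf
    rw [inter_comm] at h2
    linarith
  -- the integrated symmetric difference
  have hSD : ∫ p in (1 / 4 : ℝ)..(1 / 2), th N p * (ev p + bv p - 2 * iv p) =
      T1 N w b (fun _ => 1) + om N - 2 * ∫ p in (1 / 4 : ℝ)..(1 / 2), th N p * iv p := by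
    have e : ∀ p, th N p * (ev p + bv p - 2 * iv p) =
        th N p * ev p + th N p * bv p - 2 * (th N p * iv p) := fun p => by ring
    simp only [e]
    rw [intervalIntegral.integral_sub (ie.add ib) (ii.const_mul 2),
      intervalIntegral.integral_add ie ib, intervalIntegral.integral_const_mul, hβ, T1_one hN]
  have hSDle : ∫ p in (1 / 4 : ℝ)..(1 / 2), th N p * (ev p + bv p - 2 * iv p) ≤
      2 ^ (N + 2) * ∫ p in (1 / 4 : ℝ)..(1 / 2),
        volume.real (symmDiff {y | 1 - 2 * N * w y < p} (ball b (Real.sqrt p))) := by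
    rw [← intervalIntegral.integral_const_mul]
    have e2 : ∫ p in (1 / 4 : ℝ)..(1 / 2), 2 ^ (N + 2) *
        volume.real (symmDiff {y | 1 - 2 * N * w y < p} (ball b (Real.sqrt p))) =
        ∫ p in (1 / 4 : ℝ)..(1 / 2), 2 ^ (N + 2) * (ev p + bv p - 2 * iv p) := by
      refine intervalIntegral.integral_congr fun p hp1 => ?_
      rw [uIcc_of_le (by norm_num)] at hp1
      rw [hsd p hp1]
    rw [e2]
    refine intervalIntegral.integral_mono_on (by norm_num) ?_
      (((ie1.add ib1).sub (ii1.const_mul 2)).const_mul _) fun p hp1 => ?_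
    · have := ((ie.add ib).sub (ii.const_mul 2))
      refine this.congr fun p _ => ?_
      ring
    · refine mul_le_mul_of_nonneg_right (th_le N p) ?_
      rw [← hsd p hp1]
      exact measureReal_nonneg
  -- the excess
  have hex := excess hN hp.wm hp.wpos hp.wint hTal
  have hVT : om N - T1 N w b (fun _ => 1) ≤ 2 ^ (N + 2) * (2 * N * δ) := by
    rw [T1_one hN]
    have e1 : om N - ∫ p in (1 / 4 : ℝ)..(1 / 2), th N p * volume.real (Ep w p) =
        ∫ p in (1 / 4 : ℝ)..(1 / 2), th N p * (bv p - ev p) := by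
      have e : ∀ p, th N p * (bv p - ev p) = th N p * bv p - th N p * ev p := fun p => by ring
      simp only [e]
      rw [intervalIntegral.integral_sub ib ie, hβ]
    rw [e1, hδ]
    calc ∫ p in (1 / 4 : ℝ)..(1 / 2), th N p * (bv p - ev p)
        ≤ ∫ p in (1 / 4 : ℝ)..(1 / 2), 2 ^ (N + 2) * (bv p - ev p) := by
          refine intervalIntegral.integral_mono_on (by norm_num) ?_
            ((ib1.sub ie1).const_mul _) fun p hp1 => ?_
          · refine (ib.sub ie).congr fun p _ => ?_
            ring
          · exact mul_le_mul_of_nonneg_right (th_le N p)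
              (sub_nonneg.2 (hle p (by linarith [hp1.2])))
      _ = 2 ^ (N + 2) * ∫ p in (1 / 4 : ℝ)..(1 / 2), (bv p - ev p) :=
          intervalIntegral.integral_const_mul _ _
      _ ≤ _ := mul_le_mul_of_nonneg_left hex (by positivity)
  -- Cauchy-Schwarz
  have hQm : Measurable fun y => Real.sqrt (1 - 2 * N * w y) - N * ‖g y‖ :=
    (measurable_const.sub (measurable_const.mul hp.wm)).sqrt.sub
      (measurable_const.mul hp.gm.norm)
  have hsq1 : ∀ y, Real.sqrt (1 - 2 * N * w y) ≤ 1 := fun y => by
    refine Real.sqrt_le_one.2 ?_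
    have := mul_nonneg hN0.le (hp.wpos y)
    linarith
  have hf2 : IntegrableOn (fun y => (Real.sqrt (1 - 2 * N * w y) - N * ‖g y‖) ^ 2) Ω := by
    have h1 : IntegrableOn (fun y => 2 + 2 * (N : ℝ) ^ 2 * ‖g y‖ ^ 2) Ω :=
      (integrableOn_const hfin).add (hp.gint.integrableOn.const_mul _)
    refine h1.mono' (hQm.pow_const 2).aestronglyMeasurable (Eventually.of_forall fun y => ?_)
    rw [Real.norm_of_nonneg (sq_nonneg _)]
    have h2 := hsq1 y
    have h3 := Real.sqrt_nonneg (1 - 2 * N * w y)
    nlinarith [sq_nonneg (Real.sqrt (1 - 2 * N * w y) + N * ‖g y‖)]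
  have hf1 : IntegrableOn (fun y => |Real.sqrt (1 - 2 * N * w y) - N * ‖g y‖|) Ω := by
    have h1 : IntegrableOn (fun y => 1 + (Real.sqrt (1 - 2 * N * w y) - N * ‖g y‖) ^ 2) Ω :=
      (integrableOn_const hfin).add hf2
    refine h1.mono' hQm.abs.aestronglyMeasurable (Eventually.of_forall fun y => ?_)
    rw [Real.norm_eq_abs, abs_abs, ← sq_abs]
    nlinarith [sq_nonneg (|Real.sqrt (1 - 2 * N * w y) - N * ‖g y‖| - 1)]
  have hCS := cs_set hfin (by rw [hVr]; exact hom) hf1 hf2
  have hI0 : 0 ≤ I := integral_nonneg fun y => abs_nonneg _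
  have hIle : I ≤ Real.sqrt (om N * (N * (N + 2) * δ)) := by
    refine Real.le_sqrt_of_sq_le ?_
    refine hCS.trans ?_
    rw [hVr, hδ]
    exact mul_le_mul_of_nonneg_left hStar hom.le
  -- one profile for every `r < 1`
  have key : ∀ r : ℝ, 0 < r → r < 1 →
      2 * om N - 2 * volume.real (Ω ∩ ball b 1) ≤
        (∫ p in (1 / 4 : ℝ)..(1 / 2), th N p * (ev p + bv p - 2 * iv p)) +
        (1 / 2) * (om N - T1 N w b (fun _ => 1)) + 2 ^ (N + 1) * I +
        2 * om N * (1 - r ^ N) := by
    intro r hr0 hr1
    obtain ⟨m, C, hm, hm0, hm2, hm1, hmr⟩ := exists_profile (r := r ^ 2) (by positivity)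
      (by nlinarith)
    have h1 := one_profile hN hfin hp.wm hp.gm hp.wpos hp.w0 hp.g0 hp.wint hp.gint b hEL hRP
      hm hm0 hm2 hm1
    -- upper bound for the integral over `Ω`
    have h2 : ∫ y in Ω, m (‖y - b‖ ^ 2) ≤ 2 * volume.real (Ω ∩ ball b 1) := by
      have e1 : ∫ y in Ω, (ball b 1).indicator (fun _ => (2 : ℝ)) y =
          2 * volume.real (Ω ∩ ball b 1) := by
        rw [setIntegral_indicator measurableSet_ball]
        simp [mul_comm]
      rw [← e1]
      refine setIntegral_mono ?_ ?_ fun y => ?_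
      · exact bdd_int hfin (hm.smooth.continuous.measurable.comp
          (by fun_prop : Measurable fun y : E N => ‖y - b‖ ^ 2)) fun y => hm.bdd _
      · exact bdd_int hfin (measurable_const.indicator measurableSet_ball) (C := 2) fun y => by
          by_cases hy : y ∈ ball b 1
          · rw [indicator_of_mem hy]; simp
          · rw [indicator_of_notMem hy]; simp
      · by_cases hy : y ∈ ball b 1
        · rw [indicator_of_mem hy]
          exact hm2 _
        · rw [indicator_of_notMem hy]
          by_contra h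
          have h3 := hm1 (‖y - b‖ ^ 2) (by
            intro h0
            rw [h0] at h
            exact h le_rfl)
          apply hy
          rw [mem_ball, dist_eq_norm]
          rw [abs_of_nonneg (by positivity)] at h3
          nlinarith [norm_nonneg (y - b)]
    -- lower bound for `T1`
    have h3 : 2 * (∫ p in (1 / 4 : ℝ)..(1 / 2), th N p * iv p) - 2 * om N * (1 - r ^ N) ≤
        T1 N w b m := by
      have e1 : 2 * (∫ p in (1 / 4 : ℝ)..(1 / 2), th N p * iv p) - 2 * om N * (1 - r ^ N) =
          ∫ p in (1 / 4 : ℝ)..(1 / 2), (2 * (th N p * iv p) -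
            2 * (1 - r ^ N) * (th N p * bv p)) := by
        rw [intervalIntegral.integral_sub (ii.const_mul 2) (ib.const_mul _),
          intervalIntegral.integral_const_mul, intervalIntegral.integral_const_mul, hβ]
        ring
      rw [e1, T1_eq hN]
      have hmeasf : Measurable fun q : ℝ × E N => m (‖q.2 - b‖ ^ 2 / qq q.1) := by
        refine hm.smooth.continuous.measurable.comp ?_
        exact (by fun_prop : Measurable fun q : ℝ × E N => ‖q.2 - b‖ ^ 2).div
          (qq_cont.measurable.comp measurable_fst)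
      refine intervalIntegral.integral_mono_on (by norm_num)
        ((ii.const_mul 2).sub (ib.const_mul _))
        (int_level hp.wm hfin hsub (f := fun q : ℝ × E N => m (‖q.2 - b‖ ^ 2 / qq q.1))
          hmeasf (fun q => hm.bdd _) hthm hthD) fun p hp1 => ?_
      have hp0 : 0 < p := by linarith [hp1.1]
      have hple : p ≤ 1 := by linarith [hp1.2]
      have hq : qq p = p := qq_eq (by linarith [hp1.1])
      have hsp := Real.sqrt_pos.2 hp0
      -- lower bound of the inner integral
      have h4 : 2 * volume.real (Ep w p ∩ closedBall b (r * Real.sqrt p)) ≤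
          ∫ y in Ep w p, m (‖y - b‖ ^ 2 / qq p) := by
        have e2 : ∫ y in Ep w p, (closedBall b (r * Real.sqrt p)).indicator
            (fun _ => (2 : ℝ)) y = 2 * volume.real (Ep w p ∩ closedBall b (r * Real.sqrt p)) := by
          rw [setIntegral_indicator measurableSet_closedBall]
          simp [mul_comm]
        rw [← e2]
        refine setIntegral_mono ?_ ?_ fun y => ?_
        · exact bdd_int (hEfin p hple) (measurable_const.indicator measurableSet_closedBall)
            (C := 2) fun y => by
              by_cases hy : y ∈ closedBall b (r * Real.sqrt p)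
              · rw [indicator_of_mem hy]; simp
              · rw [indicator_of_notMem hy]; simp
        · exact bdd_int (hEfin p hple) (hm.smooth.continuous.measurable.comp
            (by fun_prop : Measurable fun y : E N => ‖y - b‖ ^ 2 / qq p)) fun y => hm.bdd _
        · by_cases hy : y ∈ closedBall b (r * Real.sqrt p)
          · rw [indicator_of_mem hy, hmr]
            rw [hq, abs_of_nonneg (by positivity), div_le_iff₀ hp0]
            rw [mem_closedBall, dist_eq_norm] at hy
            calc ‖y - b‖ ^ 2 ≤ (r * Real.sqrt p) ^ 2 :=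
                  pow_le_pow_left₀ (norm_nonneg _) hy 2
              _ = r ^ 2 * p := by rw [mul_pow, Real.sq_sqrt hp0.le]
          · rw [indicator_of_notMem hy]
            exact hm0 _
      have h5 : iv p - (1 - r ^ N) * bv p ≤
          volume.real (Ep w p ∩ closedBall b (r * Real.sqrt p)) := by
        have hsubb : closedBall b (r * Real.sqrt p) ⊆ ball b (Real.sqrt p) :=
          closedBall_subset_ball (by nlinarith)
        have a1 : Ep w p ∩ ball b (Real.sqrt p) ⊆
            (Ep w p ∩ closedBall b (r * Real.sqrt p)) ∪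
              (ball b (Real.sqrt p) \ closedBall b (r * Real.sqrt p)) := by
          rintro y ⟨h1, h2⟩
          by_cases h3 : y ∈ closedBall b (r * Real.sqrt p)
          · exact Or.inl ⟨h1, h3⟩
          · exact Or.inr ⟨h2, h3⟩
        have hf1 : volume ((Ep w p ∩ closedBall b (r * Real.sqrt p)) ∪
              (ball b (Real.sqrt p) \ closedBall b (r * Real.sqrt p))) ≠ ⊤ := by
          refine ((measure_mono (t := ball b (Real.sqrt p)) ?_).trans_lt
            measure_ball_lt_top).ne
          rintro y (⟨-, h2⟩ | ⟨h2, -⟩)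
          · exact hsubb h2
          · exact h2
        have a2 := (measureReal_mono a1 hf1).trans (measureReal_union_le _ _)
        have a3 : volume.real (ball b (Real.sqrt p) \ closedBall b (r * Real.sqrt p)) =
            (1 - r ^ N) * bv p := by
          rw [measureReal_sdiff hsubb measurableSet_closedBall measure_ball_lt_top.ne,
            vol_ball b hsp, vol_cball b (by positivity), mul_pow]
          simp only [hbv]
          ring
        rw [a3] at a2
        simp only [hiv]
        linarith
      have h6 := th_nonneg N p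
      calc 2 * (th N p * iv p) - 2 * (1 - r ^ N) * (th N p * bv p)
          = th N p * (2 * (iv p - (1 - r ^ N) * bv p)) := by ring
        _ ≤ th N p * ∫ y in Ep w p, m (‖y - b‖ ^ 2 / qq p) :=
            mul_le_mul_of_nonneg_left (by linarith) h6
    rw [hVr] at h1
    rw [hSD]
    linarith
  -- limit `r → 1`
  have hlim : 2 * om N - 2 * volume.real (Ω ∩ ball b 1) ≤
        (∫ p in (1 / 4 : ℝ)..(1 / 2), th N p * (ev p + bv p - 2 * iv p)) +
        (1 / 2) * (om N - T1 N w b (fun _ => 1)) + 2 ^ (N + 1) * I := by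
    have ht : Tendsto (fun r : ℝ => (∫ p in (1 / 4 : ℝ)..(1 / 2), th N p * (ev p + bv p -
        2 * iv p)) + (1 / 2) * (om N - T1 N w b (fun _ => 1)) + 2 ^ (N + 1) * I +
        2 * om N * (1 - r ^ N)) (𝓝[<] 1) (𝓝 ((∫ p in (1 / 4 : ℝ)..(1 / 2), th N p * (ev p + bv p -
        2 * iv p)) + (1 / 2) * (om N - T1 N w b (fun _ => 1)) + 2 ^ (N + 1) * I +
        2 * om N * (1 - 1 ^ N))) := by
      refine Tendsto.mono_left ?_ nhdsWithin_le_nhds
      exact (Continuous.tendsto (by fun_prop) 1)
    rw [one_pow, sub_self, mul_zero, add_zero] at ht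
    refine ge_of_tendsto ht ?_
    filter_upwards [Ioo_mem_nhdsLT (show (0 : ℝ) < 1 by norm_num)] with r hr
    exact key r hr.1 hr.2
  rw [hsdΩ]
  have hpow : (0 : ℝ) < 2 ^ (N + 1) := by positivity
  have h7 : 2 ^ (N + 1) * I ≤ 2 ^ (N + 1) * Real.sqrt (om N * (N * (N + 2) * δ)) :=
    mul_le_mul_of_nonneg_left hIle hpow.le
  have h8 : (1 / 2) * (om N - T1 N w b (fun _ => 1)) ≤ 2 ^ (N + 2) * N * δ := by
    nlinarith [hVT]
  linarith

end Pool.Agent.Helper37.FK
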