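import Pool.Agent.Helper37.FK.PartIFinal
import Pool.Agent.Helper39.FKRadial
import Pool.Agent.Helper61.FK.TalentiPair

/-! # M5: `Pair.partI` -/

open MeasureTheory Metric Set Filter Topology
open scoped ENNReal

namespace Pool.Agent.Helper71.FK

/-- M5 (part I) -/
theorem Pair.partI {N : ℕ} (hN : 1 ≤ N) {Ω : Set (E N)} {u : ℕ → E N → ℝ} {w : E N → ℝ}
    {g : E N → E N} (hp : Pair Ω u w g) (hIP : IP N) (hV : volume Ω = ENNReal.ofReal (om N))
    (b : E N) {δ : ℝ} (hδ : δ = TB N 1 - ∫ x, w x) :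
    volume.real (symmDiff Ω (ball b 1)) ≤
      2 ^ (N + 2) * (∫ p in (1 / 4 : ℝ)..(1 / 2),
        volume.real (symmDiff {y | 1 - 2 * N * w y < p} (ball b (Real.sqrt p)))) +
      2 ^ (N + 1) * Real.sqrt (om N * (N * (N + 2) * δ)) + 2 ^ (N + 2) * N * δ :=
  Pool.Agent.Helper37.FK.partI_of hN hp hV b hδ
    (fun _ hψ h0 _ hC => hp.eulerLagrange hψ h0 hC)
    (fun _ _ _ hq ha haq hm _ hM => hp.radialParts hN b hq ha haq hm hM)
    (fun s hs => hp.talenti hN hIP hV s hs) (hp.star hN hIP hV)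

end Pool.Agent.Helper71.FK
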